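import Pool.Agent.Q67.AXI.Defs
import Pool.Agent.TH305.DR.Dom
import Pool.Agent.Q26.CC.Good
import Pool.Agent.Q85.CC.Cut2
import Pool.Agent.W349.MF.OMEGA1

/-!
Project AXI (helper67), job AXI-33: bounds of the derivatives near a regular point.
-/

set_option autoImplicit false

open MeasureTheory Set Metric Filter Topology
open scoped ContDiff ENNReal
open H459R3.NS Pool.Agent.W268.NS Pool.Agent.Q67.VD

namespace Pool.Agent.Q151.AXI

open Pool.Agent.Q85.CC Pool.Agent.Q85.CL Pool.Agent.TH305.AX Pool.Agent.Q67.AXI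
open Pool.Agent.TH305.DR (SS SV ST SS_zero SS_succ SS_nonneg SV_congr fixT)
open W221.NS (nsq gsq A2 B2 OSol LSol)

/-- Time shift. -/
theorem shift {T E : ℝ} {O : Set V} {u : ℝ → V → V} {p : ℝ → V → ℝ} (h : LSl T E O u p)
    {T₀ : ℝ} (h0 : 0 ≤ T₀) {Ω : Set V} (hΩ : IsOpen Ω) (hΩO : Ω ⊆ O) {E' : ℝ}
    (hen : ∀ t ∈ Ioo T₀ T, ∫ x in Ω, nsq (u t) x ≤ E' ^ 2) :
    OSol 1 (T - T₀) E' Ω (fun τ => u (τ + T₀)) (fun τ => p (τ + T₀)) := by
  have hmem : ∀ t ∈ Ioo 0 (T - T₀), t + T₀ ∈ Ioo 0 T := fun t ht =>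
    ⟨by linarith [ht.1], by linarith [ht.2]⟩
  have hcd : ContDiff ℝ ∞ (fun z : ℝ × V => (z.1 + T₀, z.2)) := by fun_prop
  have hmaps : MapsTo (fun z : ℝ × V => (z.1 + T₀, z.2)) (Ioo 0 (T - T₀) ×ˢ Ω)
      (Ioo 0 T ×ˢ univ) := fun z hz => ⟨hmem z.1 hz.1, mem_univ _⟩
  exact
  { openO := hΩ
    smooth_u := h.smooth_u.comp hcd.contDiffOn hmaps
    smooth_p := h.smooth_p.comp hcd.contDiffOn hmaps
    divfree := fun t ht x hx => h.divfree _ (hmem t ht) x (hΩO hx)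
    momentum := fun t ht x hx i => by
      rw [one_mul]
      have h1 := h.momentum _ (hmem t ht) x (hΩO hx) i
      rw [← h1]
      congr 1
      exact deriv_comp_add_const (f := fun s => u s x i) T₀ t
    en_int := fun t ht => (h.en_int _ (hmem t ht)).mono_set hΩO
    en := fun t ht => hen _ ⟨by linarith [ht.1], by linarith [ht.2]⟩ }

theorem nsq_le {v : V → V} {x : V} {B : ℝ} (h : ‖v x‖ ≤ B) : nsq v x ≤ 3 * B ^ 2 := by
  have h1 : ∀ i ∈ (Finset.univ : Finset (Fin 3)), v x i ^ 2 ≤ B ^ 2 := by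
    intro i _
    have h2 := (norm_le_pi_norm (v x) i).trans h
    rw [Real.norm_eq_abs] at h2
    rw [← sq_abs]
    exact pow_le_pow_left₀ (abs_nonneg _) h2 2
  refine (Finset.sum_le_sum h1).trans (le_of_eq ?_)
  rw [Finset.sum_const, Finset.card_univ, Fintype.card_fin, nsmul_eq_mul]
  norm_num

theorem vol_ball (a : V) {ρ : ℝ} (hρ : 0 < ρ) : volume (ball a ρ) = ENNReal.ofReal ((2 * ρ) ^ 3) := by
  rw [Real.volume_pi_ball _ hρ]
  congr 1

theorem A2_le {v : V → V} {a : V} {ρ B : ℝ} (hρ : 0 < ρ)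
    (h : ∀ x ∈ ball a ρ, ‖v x‖ ≤ B) : ∫ x in ball a ρ, nsq v x ≤ 3 * B ^ 2 * (2 * ρ) ^ 3 := by
  have h1 : ∀ x ∈ ball a ρ, ‖nsq v x‖ ≤ 3 * B ^ 2 := by
    intro x hx
    rw [Real.norm_eq_abs, abs_of_nonneg (Pool.Agent.W349.MF.nsq_nonneg' v x)]
    exact nsq_le (h x hx)
  have h2 := norm_setIntegral_le_of_norm_le_const (μ := volume) (by
    rw [vol_ball a hρ]
    exact ENNReal.ofReal_lt_top) h1
  rw [Real.norm_eq_abs, measureReal_def, vol_ball a hρ, ENNReal.toReal_ofReal (by positivity)] at h2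
  exact (le_abs_self _).trans h2

/-- The bounds of the derivatives at one point. -/
theorem core : ∃ (c ε : ℝ) (K : ℕ → ℝ), 0 < c ∧ c ≤ 1 ∧ 0 < ε ∧ (∀ n, 0 < K n) ∧
    ∀ B : ℝ, 0 ≤ B → ∃ R₀ : ℝ, 0 < R₀ ∧ ∀ (T E : ℝ) (O : Set V) (u : ℝ → V → V)
      (p : ℝ → V → ℝ), LSl T E O u p → ∀ R : ℝ, 0 < R → R ≤ R₀ → ∀ T₀ : ℝ, 0 ≤ T₀ → ∀ t : ℝ,
      T₀ + R ^ 2 < t → t < T → ∀ x₀ : V, ball x₀ (3 * R) ⊆ O →
      (∀ τ ∈ Ioo T₀ T, ∀ x ∈ ball x₀ (3 * R), ‖u τ x‖ ≤ B) →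
      ∫ τ in Ioo (t - R ^ 2) t, B2 x₀ R (u τ) ≤ ε * R →
      ∀ n : ℕ, (c * R) ^ (2 * n + 4) * SV (n + 1) (u t) x₀
        ≤ K n * (1 + 3000 * (c * R) ^ 2 * B ^ 2) := by
  obtain ⟨C0, hC0, K, hK, H⟩ := fixT
  obtain ⟨D, hD, hcut⟩ := Pool.Agent.Q85.CC.cut2
  obtain ⟨c, hc⟩ : ∃ c : ℝ, c = min (1 / 8) (1 / (8 * C0)) := ⟨_, rfl⟩
  have hc0 : 0 < c := by rw [hc]; positivity
  have hc1 : c ≤ 1 / 8 := by rw [hc]; exact min_le_left _ _
  have hc2 : c * (8 * C0) ≤ 1 := by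
    rw [← le_div_iff₀ (by positivity), hc]
    exact min_le_right _ _
  refine ⟨c, c / (1024 * C0), K, hc0, by linarith, by positivity, hK, fun B hB => ?_⟩
  refine ⟨1 / (1 + 52 * C0 * D * B + 104 * C0 * B), by positivity, ?_⟩
  intro T E O u p hL R hR hRR T₀ hT₀ t ht1 ht2 x₀ hO hBd hdis n
  rw [le_div_iff₀ (by positivity)] at hRR
  have k1 : C0 * (52 * D * B) * R ≤ 1 := by
    have : 0 ≤ R * (1 + 104 * C0 * B) := by positivity
    linarith
  have k2 : C0 * (104 * B) * R ≤ 1 := by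
    have : 0 ≤ R * (1 + 52 * C0 * D * B) := by positivity
    linarith
  obtain ⟨ζ, hζ, hcs, hz0, hz1, hone, hsupp, hpd, -⟩ := hcut x₀ R hR
  obtain ⟨E', hE'⟩ : ∃ E' : ℝ, E' = 26 * B * (R * √R) := ⟨_, rfl⟩
  have hE'0 : 0 ≤ E' := by rw [hE']; positivity
  have hRs : √R * √R = R := Real.mul_self_sqrt hR.le
  have hE2 : E' ^ 2 = 676 * B ^ 2 * R ^ 3 := by
    rw [hE']
    calc (26 * B * (R * √R)) ^ 2 = 676 * B ^ 2 * R ^ 2 * (√R * √R) := by ring
      _ = 676 * B ^ 2 * R ^ 3 := by rw [hRs]; ring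
  have hS := shift hL hT₀ (Ω := ball x₀ (3 * R)) isOpen_ball hO (E' := E') (by
    intro τ hτ
    rw [hE2]
    refine (A2_le (by positivity) (hBd τ hτ)).trans ?_
    have : 0 ≤ B ^ 2 * R ^ 3 := by positivity
    calc 3 * B ^ 2 * (2 * (3 * R)) ^ 3 = 648 * (B ^ 2 * R ^ 3) := by ring
      _ ≤ 676 * (B ^ 2 * R ^ 3) := by linarith
      _ = 676 * B ^ 2 * R ^ 3 := by ring)
  have hts : tsupport ζ ⊆ ball x₀ (3 * R) := by
    refine (closure_minimal (t := closedBall x₀ (2 * R)) ?_ isClosed_closedBall).trans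
      (closedBall_subset_ball (by linarith))
    intro y hy
    rw [mem_closedBall, dist_eq_norm]
    exact hsupp y hy
  have h1b : ∀ x ∈ ball x₀ R, ζ x = 1 := fun x hx => hone x (ball_subset_closedBall hx)
  have hLS := Pool.Agent.W349.MF.cut_sol hE'0 hS hζ hcs hts (fun x => ⟨hz0 x, hz1 x⟩)
    (O := ball x₀ R) isOpen_ball (ball_subset_ball (by linarith)) h1b (B := D / R)
    (by positivity) (fun i x => hpd x i)
  obtain ⟨r, hr⟩ : ∃ r : ℝ, r = c * R := ⟨_, rfl⟩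
  have hr0 : 0 < r := by rw [hr]; positivity
  have hrR : r ≤ R / 8 := by
    rw [hr]
    have := mul_le_mul_of_nonneg_right hc1 hR.le
    linarith
  have hr2R : r ^ 2 ≤ R ^ 2 := pow_le_pow_left₀ hr0.le (by linarith) 2
  have hsr : √r ≤ √R := Real.sqrt_le_sqrt (by linarith)
  have hsr0 : 0 ≤ √r := Real.sqrt_nonneg _
  have hsR0 : 0 ≤ √R := Real.sqrt_nonneg _
  have hκ : C0 * (2 * (D / R) * E') * √r ≤ 1 := by
    have e1 : 2 * (D / R) * E' = 52 * D * B * √R := by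
      rw [hE']
      field_simp
      ring
    rw [e1]
    calc C0 * (52 * D * B * √R) * √r ≤ C0 * (52 * D * B * √R) * √R := by gcongr
      _ = C0 * (52 * D * B) * (√R * √R) := by ring
      _ = C0 * (52 * D * B) * R := by rw [hRs]
      _ ≤ 1 := k1
  obtain ⟨S, hSm, hSv, hSb⟩ := H (T - T₀) (2 * (D / R) * E') E' (ball x₀ R) _ _ (by positivity)
    hE'0 hLS r (t - T₀) hr0 (by linarith) (by linarith) hκ
  -- the dissipation
  have hdis2 : ∫⁻ τ in Ioo (t - T₀ - r ^ 2) (t - T₀), ∫⁻ y in ball x₀ R,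
      ENNReal.ofReal (gsq (fun x => ζ x • u (τ + T₀) x) y) ≤ ENNReal.ofReal (c / (1024 * C0) * R) := by
    have e1 : ∀ τ, ∫⁻ y in ball x₀ R, ENNReal.ofReal (gsq (fun x => ζ x • u (τ + T₀) x) y) =
        ∫⁻ y in ball x₀ R, ENNReal.ofReal (gsq (u (τ + T₀)) y) := by
      intro τ
      refine setLIntegral_congr_fun measurableSet_ball fun y hy => ?_
      have h2 : gsq (fun x => ζ x • u (τ + T₀) x) y = gsq (u (τ + T₀)) y := by
        unfold W221.NS.gsq
        refine Finset.sum_congr rfl fun i _ => Finset.sum_congr rfl fun j _ => ?_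
        have h3 : (fun y => (ζ y • u (τ + T₀) y) i) =ᶠ[𝓝 y] fun y => u (τ + T₀) y i := by
          filter_upwards [isOpen_ball.mem_nhds hy] with z hz
          rw [h1b z hz, one_smul]
        rw [Pool.Agent.W349.MF.pd_congr' h3 j]
      show ENNReal.ofReal (gsq (fun x => ζ x • u (τ + T₀) x) y) = _
      rw [h2]
    simp only [e1]
    have e2 := (measurePreserving_add_right (volume : Measure ℝ) T₀).setLIntegral_comp_preimage_emb
      (MeasurableEquiv.addRight T₀).measurableEmbedding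
      (fun τ => ∫⁻ y in ball x₀ R, ENNReal.ofReal (gsq (u τ) y)) (Ioo (t - r ^ 2) t)
    have e3 : (fun τ : ℝ => τ + T₀) ⁻¹' Ioo (t - r ^ 2) t = Ioo (t - T₀ - r ^ 2) (t - T₀) := by
      rw [preimage_add_const_Ioo]
      congr 1
      ring
    rw [e3] at e2
    rw [e2]
    have e4 := Pool.Agent.Q26.CC.lint_conv hL.smooth_u (a := t - R ^ 2) (b := t)
      (by have := sq_nonneg R; linarith) (by have := sq_nonneg R; linarith) ht2 x₀ R
    refine (lintegral_mono_set (Ioo_subset_Ioo_left (by linarith : t - R ^ 2 ≤ t - r ^ 2))).trans ?_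
    rw [e4]
    exact ENNReal.ofReal_le_ofReal hdis
  have hvol : volume S < volume (ball x₀ (r / 16)) := by
    refine hSv.trans_lt ?_
    refine (mul_le_mul_right hdis2 _).trans_lt ?_
    rw [← ENNReal.ofReal_mul (by positivity), vol_ball x₀ (by positivity),
      ENNReal.ofReal_lt_ofReal_iff (by positivity)]
    have e1 : C0 * r ^ 2 * (c / (1024 * C0) * R) = r ^ 2 * (c * R) / 1024 := by
      field_simp
    rw [e1, ← hr]
    have : 0 < r ^ 3 := by positivity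
    calc r ^ 2 * r / 1024 = r ^ 3 / 1024 := by ring
      _ < r ^ 3 / 512 := by linarith
      _ = (2 * (r / 16)) ^ 3 := by ring
  obtain ⟨z, hz, hzS⟩ : ∃ z, z ∈ ball x₀ (r / 16) ∧ z ∉ S := by
    by_contra hcon
    push Not at hcon
    exact absurd (measure_mono (μ := (volume : Measure V)) hcon) (not_le.2 hvol)
  have hzd := mem_ball.1 hz
  have hbz : ball z (C0 * (r + E' * √r)) ⊆ ball x₀ R := by
    apply ball_subset_ball'
    have h2 : E' * √r ≤ 26 * B * R ^ 2 := by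
      rw [hE']
      calc 26 * B * (R * √R) * √r ≤ 26 * B * (R * √R) * √R := by gcongr
        _ = 26 * B * R * (√R * √R) := by ring
        _ = 26 * B * R ^ 2 := by rw [hRs]; ring
    have h3 : C0 * (r + E' * √r) ≤ C0 * (r + 26 * B * R ^ 2) := by gcongr
    have h4 : C0 * r ≤ R / 8 := by
      rw [hr]
      have : c * (8 * C0) * R ≤ 1 * R := mul_le_mul_of_nonneg_right hc2 hR.le
      linarith
    have h5 : C0 * (26 * B * R ^ 2) ≤ R / 4 := by
      have : C0 * (104 * B) * R * R ≤ 1 * R := mul_le_mul_of_nonneg_right k2 hR.le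
      linarith
    have h6 : C0 * (r + 26 * B * R ^ 2) = C0 * r + C0 * (26 * B * R ^ 2) := by ring
    linarith
  obtain ⟨-, hb⟩ := hSb z hzS hbz x₀ (by rw [mem_ball_comm]; exact hz) n
  have e5 : t - T₀ + T₀ = t := by ring
  simp only [e5] at hb
  have e6 : SV (n + 1) (fun x => ζ x • u t x) x₀ = SV (n + 1) (u t) x₀ :=
    SV_congr (n + 1) (isOpen_ball (x := x₀) (ε := R)) (fun x hx => by rw [h1b x hx, one_smul])
      (mem_ball_self hR)
  rw [e6] at hb
  rw [← hr]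
  refine hb.trans ?_
  refine mul_le_mul_of_nonneg_left ?_ (hK n).le
  have e7 : A2 z (5 * r) (fun x => ζ x • u t x) ≤ 3 * B ^ 2 * (2 * (5 * r)) ^ 3 := by
    unfold W221.NS.A2
    refine A2_le (by positivity) fun x hx => ?_
    have h2 := mem_ball.1 hx
    have h3 : dist x x₀ < R := by
      have := dist_triangle x z x₀
      linarith
    rw [h1b x h3, one_smul]
    exact hBd t ⟨by have := sq_nonneg R; linarith, ht2⟩ x (by rw [mem_ball]; linarith)
  have e8 : r⁻¹ * A2 z (5 * r) (fun x => ζ x • u t x) ≤ r⁻¹ * (3 * B ^ 2 * (2 * (5 * r)) ^ 3) := by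
    gcongr
  have e9 : r⁻¹ * (3 * B ^ 2 * (2 * (5 * r)) ^ 3) = 3000 * r ^ 2 * B ^ 2 := by
    field_simp
    ring
  linarith

theorem abs_le_of_sq {a M : ℝ} (h : a ^ 2 ≤ M) : |a| ≤ 1 + M := by
  rw [abs_le]
  constructor <;> nlinarith [sq_nonneg (a + 1), sq_nonneg (a - 1)]

/-- Job AXI-33. -/
theorem stmDer (hBQ : StmBQ) : StmDer := by
  obtain ⟨c, ε, Kn, hc0, hc1, hε, hKn, hcore⟩ := core
  intro T E O u p hT hL y hy hRg
  obtain ⟨T₁, r₁, ρ, hT₁, hT₁T, hr₁, hρ, hQ⟩ := hBQ T E O u p hT hL y hy hRg ε hε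
  obtain ⟨B₀, δ, hδ, hB₀⟩ := hRg
  obtain ⟨B, hB⟩ : ∃ B : ℝ, B = |B₀| := ⟨_, rfl⟩
  have hB0 : 0 ≤ B := by rw [hB]; exact abs_nonneg _
  obtain ⟨R₀, hR₀, hcR⟩ := hcore B hB0
  obtain ⟨ρO, hρO, hball⟩ := Metric.isOpen_iff.1 hL.openO y hy
  obtain ⟨d, hd⟩ : ∃ d : ℝ, d = min δ (min (T - T₁) (T / 2)) := ⟨_, rfl⟩
  have hd0 : 0 < d := by
    rw [hd]
    exact lt_min hδ (lt_min (by linarith) (by positivity))
  have hdδ : d ≤ δ := by rw [hd]; exact min_le_left _ _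
  have hdT₁ : d ≤ T - T₁ := by rw [hd]; exact (min_le_right _ _).trans (min_le_left _ _)
  have hdT : d ≤ T / 2 := by rw [hd]; exact (min_le_right _ _).trans (min_le_right _ _)
  obtain ⟨R, hR⟩ : ∃ R : ℝ, R = min (min R₀ r₁) (min (min 1 (d / 2)) (min (ρO / 6) (δ / 6))) :=
    ⟨_, rfl⟩
  have hR0 : 0 < R := by rw [hR]; positivity
  have m1 : R ≤ min R₀ r₁ := by rw [hR]; exact min_le_left _ _
  have m2 : R ≤ min (min 1 (d / 2)) (min (ρO / 6) (δ / 6)) := by rw [hR]; exact min_le_right _ _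
  have hRR₀ : R ≤ R₀ := m1.trans (min_le_left _ _)
  have hRr₁ : R ≤ r₁ := m1.trans (min_le_right _ _)
  have hR1 : R ≤ 1 := m2.trans ((min_le_left _ _).trans (min_le_left _ _))
  have hRd : R ≤ d / 2 := m2.trans ((min_le_left _ _).trans (min_le_right _ _))
  have hRO : R ≤ ρO / 6 := m2.trans ((min_le_right _ _).trans (min_le_left _ _))
  have hRδ : R ≤ δ / 6 := m2.trans ((min_le_right _ _).trans (min_le_right _ _))
  obtain ⟨δ', hδ'⟩ : ∃ δ' : ℝ, δ' = min (min (d / 2) ρ) (min (ρO / 2) (δ / 2)) := ⟨_, rfl⟩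
  have hδ'0 : 0 < δ' := by rw [hδ']; positivity
  have m3 : δ' ≤ min (d / 2) ρ := by rw [hδ']; exact min_le_left _ _
  have m4 : δ' ≤ min (ρO / 2) (δ / 2) := by rw [hδ']; exact min_le_right _ _
  have n1 : δ' ≤ d / 2 := m3.trans (min_le_left _ _)
  have n2 : δ' ≤ ρ := m3.trans (min_le_right _ _)
  have n3 : δ' ≤ ρO / 2 := m4.trans (min_le_left _ _)
  have n4 : δ' ≤ δ / 2 := m4.trans (min_le_right _ _)
  have hRsq : R ^ 2 ≤ d / 2 := by nlinarith
  obtain ⟨M, hM⟩ : ∃ M : ℕ → ℝ, M = fun n =>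
    Kn n * (1 + 3000 * (c * R) ^ 2 * B ^ 2) / (c * R) ^ (2 * n + 4) := ⟨_, rfl⟩
  have hM0 : ∀ n, 0 ≤ M n := by
    intro n
    rw [hM]
    have := hKn n
    positivity
  have hcRp : 0 < c * R := by positivity
  refine ⟨B + (1 + M 0) + (1 + M 1) + (1 + M 2), δ', by linarith [hM0 0, hM0 1, hM0 2], hδ'0,
    by linarith, ?_⟩
  intro t ht x hx i
  have hxd := mem_ball.1 hx
  have ht1 : T - d + R ^ 2 < t := by linarith [ht.1]
  have htI : t ∈ Ioo T₁ T := ⟨by have := sq_nonneg R; linarith, ht.2⟩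
  have hbd : ∀ τ ∈ Ioo (T - d) T, ∀ z ∈ ball x (3 * R), ‖u τ z‖ ≤ B := by
    intro τ hτ z hz
    refine (hB₀ τ ⟨by linarith [hτ.1], hτ.2⟩ (by linarith [hτ.1]) z ?_).trans
      (by rw [hB]; exact le_abs_self _)
    rw [mem_ball] at hz
    have := dist_triangle z x y
    rw [← dist_eq_norm]
    linarith
  have hSV : ∀ n, SV (n + 1) (u t) x ≤ M n := by
    intro n
    have h1 := hcR T E O u p hL R hR0 hRR₀ (T - d) (by linarith) t ht1 ht.2 x ((by
      intro z hz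
      apply hball
      rw [mem_ball] at hz ⊢
      have := dist_triangle z x y
      linarith)) hbd (hQ t htI x (mem_closedBall.2 (by linarith)) R ⟨hR0, hRr₁⟩) n
    rw [hM]
    show _ ≤ Kn n * (1 + 3000 * (c * R) ^ 2 * B ^ 2) / (c * R) ^ (2 * n + 4)
    rw [le_div_iff₀ (by positivity), mul_comm]
    exact h1
  have hSS : ∀ n, SS (n + 1) (fun z => u t z i) x ≤ M n := by
    intro n
    refine le_trans ?_ (hSV n)
    unfold Pool.Agent.TH305.DR.SV
    exact Finset.single_le_sum (f := fun i => SS (n + 1) (fun y => u t y i) x)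
      (fun q _ => SS_nonneg _ _ _) (Finset.mem_univ i)
  have step : ∀ (n : ℕ) (f : V → ℝ) (j : Fin 3), SS n (pd j f) x ≤ SS (n + 1) f x := by
    intro n f j
    rw [SS_succ]
    exact Finset.single_le_sum (f := fun j => SS n (pd j f) x)
      (fun q _ => SS_nonneg _ _ _) (Finset.mem_univ j)
  have base : ∀ f : V → ℝ, SS 0 f x = f x ^ 2 := fun f => by rw [SS_zero]
  refine ⟨?_, fun j => ?_, fun j k => ?_, fun j k l => ?_⟩
  · have h1 := (norm_le_pi_norm (u t x) i).trans (hbd t ⟨by have := sq_nonneg R; linarith, ht.2⟩ x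
      (mem_ball_self (by positivity)))
    rw [Real.norm_eq_abs] at h1
    linarith [hM0 0, hM0 1, hM0 2]
  · have h1 := (step 0 (fun z => u t z i) j).trans (hSS 0)
    rw [base] at h1
    have h2 := abs_le_of_sq h1
    linarith [hM0 0, hM0 1, hM0 2]
  · have h1 := ((step 0 (pd k (fun z => u t z i)) j).trans (step 1 _ k)).trans (hSS 1)
    rw [base] at h1
    have h2 := abs_le_of_sq h1
    linarith [hM0 0, hM0 1, hM0 2]
  · have h1 := (((step 0 (pd k (pd l (fun z => u t z i))) j).trans (step 1 _ k)).trans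
      (step 2 _ l)).trans (hSS 2)
    rw [base] at h1
    have h2 := abs_le_of_sq h1
    linarith [hM0 0, hM0 1, hM0 2]

end Pool.Agent.Q151.AXI
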