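import Pool.Agent.Q67.AXI.Defs
import Pool.Agent.W221.NS.Asm2
import Pool.Agent.TH305.AX.Ring

/-!
Project AXI (helper67), job AXI-34: regular points of axisymmetric solutions.
-/

set_option autoImplicit false

open MeasureTheory Set Metric Filter Topology
open scoped ContDiff ENNReal
open H459R3.NS Pool.Agent.W268.NS Pool.Agent.Q67.VD

namespace Pool.Agent.Q151.AXI

open Pool.Agent.Q85.CC Pool.Agent.Q85.CL Pool.Agent.TH305.AX Pool.Agent.Q67.AXI

/-- A point which is not regular is singular. -/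
theorem sing_of {T : ℝ} {u : ℝ → V → V} {y : V} (h : ¬ Rg T u y) : W221.NS.Sing T u y := by
  intro δ hδ B
  by_contra hcon
  push Not at hcon
  refine h ⟨B, δ / 2, by positivity, fun t ht _ x hx => ?_⟩
  refine hcon t ⟨by linarith [ht.1], ht.2⟩ x ?_
  rw [mem_ball, dist_eq_norm]
  linarith

theorem sing_rot {T : ℝ} (hT : 0 < T) {u : ℝ → V → V} (ha : ∀ t ∈ Ioo 0 T, Axi (u t)) {y : V}
    (h : W221.NS.Sing T u y) (θ : ℝ) : W221.NS.Sing T u (rot θ y) := by
  intro δ hδ B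
  obtain ⟨t, ht, z, hz, hB⟩ := h (min (δ / 4) T) (lt_min (by positivity) hT) (2 * B)
  have m1 := min_le_left (δ / 4) T
  have m2 := min_le_right (δ / 4) T
  refine ⟨t, ⟨by linarith [ht.1], ht.2⟩, rot θ z, ?_, ?_⟩
  · rw [mem_ball, dist_eq_norm]
    have e : rot θ z - rot θ y = rot θ (z - y) := (map_sub (rotL θ) _ _).symm
    rw [e]
    have h1 := rot_norm θ (z - y)
    rw [mem_ball, dist_eq_norm] at hz
    linarith
  · rw [ha t ⟨by linarith [ht.1], ht.2⟩ θ z]
    have e : rot (-θ) (rot θ (u t z)) = u t z := by rw [rot_rot, neg_add_cancel, rot_zero]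
    have h1 := rot_norm (-θ) (rot θ (u t z))
    rw [e] at h1
    linarith

theorem osol {T E : ℝ} (hT : 0 < T) {O : Set V} {u : ℝ → V → V} {p : ℝ → V → ℝ}
    (h : LSl T E O u p) : W221.NS.OSol 1 T √E O u p where
  openO := h.openO
  smooth_u := h.smooth_u.mono (prod_mono_right (subset_univ _))
  smooth_p := h.smooth_p.mono (prod_mono_right (subset_univ _))
  divfree := h.divfree
  momentum := fun t ht x hx i => by
    rw [one_mul]
    exact h.momentum t ht x hx i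
  en_int := h.en_int
  en := fun t ht => by
    have h1 : 0 ≤ ∫ x in O, W221.NS.nsq (u (T / 2)) x :=
      integral_nonneg fun x => Finset.sum_nonneg fun i _ => sq_nonneg _
    have h2 := h.en (T / 2) ⟨by positivity, by linarith⟩
    rw [Real.sq_sqrt (h1.trans h2)]
    exact h.en t ht

/-- There are few separated singular points. -/
theorem few {T E : ℝ} (hT : 0 < T) {O : Set V} {u : ℝ → V → V} {p : ℝ → V → ℝ}
    (h : LSl T E O u p) {K : Set V} (hK : IsCompact K) (hKO : K ⊆ O) {a : ℝ} (ha : 0 < a) :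
    ∃ r₀ : ℝ, 0 < r₀ ∧ ∀ r : ℝ, 0 < r → r < r₀ → ∀ S : Finset V,
      (∀ x ∈ S, x ∈ K ∧ W221.NS.Sing T u x) → (∀ x ∈ S, ∀ y ∈ S, x ≠ y → r ≤ ‖x - y‖) →
        (S.card : ℝ) * r < a := by
  obtain ⟨C, hC, hω⟩ := W221.NS.B.p_omega1
  obtain ⟨r₀, hr₀, hr⟩ := hω T √E O u p hT (Real.sqrt_nonneg _) (osol hT h) K hK hKO
  obtain ⟨G, hG⟩ : ∃ G : ℝ → ℝ≥0∞, G = fun τ => ∫⁻ y in O, ENNReal.ofReal (W221.NS.gsq (u τ) y) :=
    ⟨_, rfl⟩
  have hfin : ∫⁻ τ, G τ ∂(volume.restrict (Ioo 0 T)) ≠ ⊤ := by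
    have h1 := h.dis
    have h2 : (volume : Measure (ℝ × V)).restrict (Ioo 0 T ×ˢ O) =
        (volume.restrict (Ioo 0 T)).prod (volume.restrict O) := by
      rw [Measure.prod_restrict]
      rfl
    unfold IntegrableOn at h1
    rw [h2] at h1
    have h3 : ∫⁻ z, ENNReal.ofReal (W221.NS.gsq (u z.1) z.2)
        ∂((volume.restrict (Ioo 0 T)).prod (volume.restrict O)) ≠ ⊤ := by
      refine ne_of_lt (lt_of_le_of_lt (lintegral_mono fun z => ?_) h1.2)
      rw [Real.enorm_eq_ofReal_abs]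
      exact ENNReal.ofReal_le_ofReal (le_abs_self _)
    rw [lintegral_prod _ h1.1.aemeasurable.ennreal_ofReal] at h3
    rw [hG]
    exact h3
  obtain ⟨δ, hδ, hδ2⟩ := exists_pos_setLIntegral_lt_of_measure_lt hfin
    (ε := ENNReal.ofReal (a / C)) (by
      rw [Ne, ENNReal.ofReal_eq_zero, not_le]
      positivity)
  have hcont : Tendsto (fun r : ℝ => ENNReal.ofReal (32 * r ^ 2)) (𝓝 0) (𝓝 (ENNReal.ofReal (32 * 0 ^ 2))) := by
    refine Continuous.tendsto (ENNReal.continuous_ofReal.comp (by fun_prop)) 0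
  have hev : ∀ᶠ r : ℝ in 𝓝 0, ENNReal.ofReal (32 * r ^ 2) < δ := by
    refine hcont.eventually_lt_const ?_
    simpa using hδ
  obtain ⟨r₁, hr₁, hr₁2⟩ := Metric.eventually_nhds_iff.1 hev
  obtain ⟨r₂, hr₂⟩ : ∃ r₂ : ℝ, r₂ = min 1 (T / 32) := ⟨_, rfl⟩
  have hr₂0 : 0 < r₂ := by rw [hr₂]; positivity
  refine ⟨min r₀ (min r₁ r₂), lt_min hr₀ (lt_min hr₁ hr₂0), fun r hr0 hrr S hS hsep => ?_⟩
  have q1 : r < r₀ := hrr.trans_le (min_le_left _ _)
  have q2 : r < r₁ := hrr.trans_le ((min_le_right _ _).trans (min_le_left _ _))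
  have q3 : r < r₂ := hrr.trans_le ((min_le_right _ _).trans (min_le_right _ _))
  have q4 : r < 1 := q3.trans_le (by rw [hr₂]; exact min_le_left _ _)
  have q5 : r < T / 32 := q3.trans_le (by rw [hr₂]; exact min_le_right _ _)
  have q6 : 32 * r ^ 2 < T := by nlinarith
  have h1 := hr r hr0 q1 S hS hsep
  have h2 := hr₁2 (y := r) (by rw [Real.dist_eq, sub_zero, abs_of_pos hr0]; exact q2)
  have h3 := hδ2 (Ioo (T - 32 * r ^ 2) T) (by
    refine lt_of_le_of_lt (Measure.restrict_apply_le _ _) ?_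
    rw [Real.volume_Ioo]
    refine lt_of_le_of_lt (le_of_eq ?_) h2
    congr 1
    ring)
  rw [Measure.restrict_restrict measurableSet_Ioo, inter_eq_self_of_subset_left
    (Ioo_subset_Ioo_left (by linarith))] at h3
  have h4 : ENNReal.ofReal (S.card * r) < ENNReal.ofReal a := by
    refine lt_of_le_of_lt h1 ?_
    rw [hG] at h3
    refine lt_of_lt_of_le (ENNReal.mul_lt_mul_right (by
      rw [Ne, ENNReal.ofReal_eq_zero, not_le]
      exact hC) ENNReal.ofReal_ne_top h3) ?_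
    rw [← ENNReal.ofReal_mul hC.le, mul_div_cancel₀ _ hC.ne']
  exact (ENNReal.ofReal_lt_ofReal_iff ha).1 h4

/-- Off the axis. -/
theorem reg_off {T E c R H : ℝ} {u : ℝ → V → V} {p : ℝ → V → ℝ} (hT : 0 < T)
    (h : AxL T E c R H u p) {y : V} (hy : y ∈ Co c R H) (hs : 0 < sg y) : Rg T u y := by
  by_contra hcon
  have hsing := sing_of hcon
  obtain ⟨K, hKd⟩ : ∃ K : Set V, K = {x | sg x = sg y ∧ x 2 = y 2} := ⟨_, rfl⟩
  have hK : IsCompact K := by
    have hcl : IsClosed K := by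
      rw [hKd]
      refine IsClosed.inter ?_ ?_
      · exact isClosed_eq (by unfold sg; fun_prop) continuous_const
      · exact isClosed_eq (by fun_prop) continuous_const
    refine Metric.isCompact_of_isClosed_isBounded hcl ?_
    refine (Metric.isBounded_closedBall (x := (0 : V)) (r := √(sg y) + |y 2|)).subset ?_
    intro x hx
    rw [hKd] at hx
    obtain ⟨hx1, hx2⟩ := hx
    rw [mem_closedBall, dist_zero_right, pi_norm_le_iff_of_nonneg (by positivity)]
    have hx1' : x 0 ^ 2 + x 1 ^ 2 = sg y := hx1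
    intro i
    rw [Real.norm_eq_abs]
    fin_cases i
    · show |x 0| ≤ _
      have : |x 0| ≤ √(sg y) := Real.abs_le_sqrt (by nlinarith [sq_nonneg (x 1)])
      have := abs_nonneg (y 2)
      linarith
    · show |x 1| ≤ _
      have : |x 1| ≤ √(sg y) := Real.abs_le_sqrt (by nlinarith [sq_nonneg (x 0)])
      have := abs_nonneg (y 2)
      linarith
    · show |x 2| ≤ _
      rw [hx2]
      have := Real.sqrt_nonneg (sg y)
      linarith
  have hKO : K ⊆ Co c R H := by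
    intro x hx
    rw [hKd] at hx
    obtain ⟨hx1, hx2⟩ := hx
    refine ⟨?_, ?_⟩
    · rw [hx1]; exact hy.1
    · rw [hx2]; exact hy.2
  obtain ⟨r₀, hr₀, hfew⟩ := few hT h.toLSl hK hKO (a := √(sg y)) (Real.sqrt_pos.2 hs)
  obtain ⟨r, hr⟩ : ∃ r : ℝ, r = r₀ / 2 := ⟨_, rfl⟩
  have hr0 : 0 < r := by rw [hr]; positivity
  obtain ⟨N, θ, hN, hN1, hθ⟩ := ring_pts y hr0
  have hinj : Set.InjOn (fun k => rot (θ k) y) (Finset.range N : Set ℕ) := by
    intro k hk l hl hkl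
    rw [Finset.mem_coe, Finset.mem_range] at hk hl
    have h1 := congrFun hkl 0
    simp only at h1
    rw [hθ k hk, hθ l hl] at h1
    have h2 := mul_right_cancel₀ hr0.ne' h1
    exact_mod_cast h2
  have hlt := hfew r hr0 (by rw [hr]; linarith) ((Finset.range N).image fun k => rot (θ k) y) (by
    intro x hx
    obtain ⟨k, hk, rfl⟩ := Finset.mem_image.1 hx
    refine ⟨?_, sing_rot hT h.axi hsing _⟩
    rw [hKd]
    exact ⟨sg_rot _ _, rfl⟩) (by
    intro x hx z hz hxz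
    obtain ⟨k, hk, rfl⟩ := Finset.mem_image.1 hx
    obtain ⟨l, hl, rfl⟩ := Finset.mem_image.1 hz
    rw [Finset.mem_range] at hk hl
    have hkl : k ≠ l := fun h => hxz (by rw [h])
    have h1 := norm_le_pi_norm (rot (θ k) y - rot (θ l) y) 0
    rw [Pi.sub_apply, hθ k hk, hθ l hl, Real.norm_eq_abs, ← sub_mul, abs_mul,
      abs_of_pos hr0] at h1
    have h2 := nat_sep hkl
    nlinarith)
  rw [Finset.card_image_of_injOn hinj, Finset.card_range] at hlt
  rw [div_le_iff₀ hr0] at hN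
  linarith

/-- On the axis. -/
theorem reg_on {T E c R H : ℝ} {u : ℝ → V → V} {p : ℝ → V → ℝ} (hT : 0 < T) (hR : 0 < R)
    (h : AxL T E c R H u p) {h₀ : ℝ} (hh0 : 0 < h₀) (hhH : h₀ < H) :
    ∃ h : ℝ, 0 < h ∧ h < h₀ ∧ Rg T u ![0, 0, c + h] ∧ Rg T u ![0, 0, c - h] := by
  by_contra hcon
  push Not at hcon
  have hsg : ∀ z : ℝ, sg (![0, 0, z] : V) = 0 := by
    intro z
    unfold sg
    simp
  obtain ⟨K, hKd⟩ : ∃ K : Set V, K = (fun z : ℝ => (![0, 0, z] : V)) '' Icc (c - h₀) (c + h₀) :=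
    ⟨_, rfl⟩
  have hK : IsCompact K := by
    rw [hKd]
    refine isCompact_Icc.image ?_
    refine continuous_pi fun i => ?_
    fin_cases i
    · exact continuous_const
    · exact continuous_const
    · exact continuous_id
  have hKO : K ⊆ Co c R H := by
    intro x hx
    rw [hKd] at hx
    obtain ⟨z, hz, rfl⟩ := hx
    refine ⟨?_, ?_⟩
    · rw [hsg]; positivity
    · show |z - c| < H
      rw [abs_lt]
      constructor <;> linarith [hz.1, hz.2]
  have hpt : ∀ s : ℝ, ∃ z : ℝ, 0 < s → s < h₀ → |z| = s ∧ W221.NS.Sing T u ![0, 0, c + z] := by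
    intro s
    by_cases hs : 0 < s ∧ s < h₀
    · by_cases h1 : Rg T u ![0, 0, c + s]
      · have h2 := hcon s hs.1 hs.2 h1
        refine ⟨-s, fun _ _ => ⟨by rw [abs_neg, abs_of_pos hs.1], ?_⟩⟩
        rw [← sub_eq_add_neg]
        exact sing_of h2
      · exact ⟨s, fun _ _ => ⟨abs_of_pos hs.1, sing_of h1⟩⟩
    · exact ⟨0, fun h1 h2 => absurd ⟨h1, h2⟩ hs⟩
  choose Z hZ using hpt
  obtain ⟨r₀, hr₀, hfew⟩ := few hT h.toLSl hK hKO (a := h₀ / 4) (by positivity)
  obtain ⟨r, hr⟩ : ∃ r : ℝ, r = min (r₀ / 2) (h₀ / 4) := ⟨_, rfl⟩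
  have hr0 : 0 < r := by rw [hr]; positivity
  have hr1 : r < r₀ := lt_of_le_of_lt (by rw [hr]; exact min_le_left _ _) (by linarith : r₀ / 2 < r₀)
  have hr2 : r ≤ h₀ / 4 := by rw [hr]; exact min_le_right _ _
  obtain ⟨n, hn⟩ : ∃ n : ℕ, n = ⌊h₀ / (2 * r)⌋₊ := ⟨_, rfl⟩
  have hn1 : (n : ℝ) * r ≤ h₀ / 2 := by
    have h1 : (n : ℝ) ≤ h₀ / (2 * r) := by rw [hn]; exact Nat.floor_le (by positivity)
    rw [le_div_iff₀ (by positivity)] at h1
    linarith
  have hn2 : h₀ / 4 ≤ (n : ℝ) * r := by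
    have h1 : h₀ / (2 * r) < n + 1 := by rw [hn]; exact Nat.lt_floor_add_one _
    rw [div_lt_iff₀ (by positivity)] at h1
    linarith
  have hk : ∀ k : ℕ, k < n → 0 < ((k : ℝ) + 1) * r ∧ ((k : ℝ) + 1) * r < h₀ := by
    intro k hk
    refine ⟨by positivity, ?_⟩
    have h1 : (k : ℝ) + 1 ≤ n := by exact_mod_cast hk
    have h2 : ((k : ℝ) + 1) * r ≤ n * r := mul_le_mul_of_nonneg_right h1 hr0.le
    linarith
  have hsep : ∀ k l : ℕ, k < n → l < n → k ≠ l →
      r ≤ |Z (((k : ℝ) + 1) * r) - Z (((l : ℝ) + 1) * r)| := by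
    intro k l hkn hln hkl
    obtain ⟨a1, -⟩ := hZ (((k : ℝ) + 1) * r) (hk k hkn).1 (hk k hkn).2
    obtain ⟨b1, -⟩ := hZ (((l : ℝ) + 1) * r) (hk l hln).1 (hk l hln).2
    have h1 := abs_abs_sub_abs_le_abs_sub (Z (((k : ℝ) + 1) * r)) (Z (((l : ℝ) + 1) * r))
    rw [a1, b1, ← sub_mul, abs_mul, abs_of_pos hr0] at h1
    have h2 := nat_sep hkl
    have h3 : |(k : ℝ) + 1 - (l + 1)| = |(k : ℝ) - l| := by congr 1; ring
    rw [h3] at h1
    nlinarith
  have hinj : Set.InjOn (fun k : ℕ => (![0, 0, c + Z (((k : ℝ) + 1) * r)] : V))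
      (Finset.range n : Set ℕ) := by
    intro k hk' l hl' hkl
    rw [Finset.mem_coe, Finset.mem_range] at hk' hl'
    by_contra hne
    have h1 := hsep k l hk' hl' hne
    have h2 : c + Z (((k : ℝ) + 1) * r) = c + Z (((l : ℝ) + 1) * r) := congrFun hkl 2
    have h3 : Z (((k : ℝ) + 1) * r) = Z (((l : ℝ) + 1) * r) := by linarith
    rw [h3, sub_self, abs_zero] at h1
    linarith
  have hlt := hfew r hr0 hr1 ((Finset.range n).image
    fun k : ℕ => (![0, 0, c + Z (((k : ℝ) + 1) * r)] : V)) (by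
    intro x hx
    obtain ⟨k, hk', rfl⟩ := Finset.mem_image.1 hx
    rw [Finset.mem_range] at hk'
    obtain ⟨a1, a2⟩ := hZ (((k : ℝ) + 1) * r) (hk k hk').1 (hk k hk').2
    refine ⟨?_, a2⟩
    rw [hKd]
    have h1 := abs_le.1 (a1.le.trans (hk k hk').2.le)
    exact ⟨_, ⟨by linarith [h1.1], by linarith [h1.2]⟩, rfl⟩) (by
    intro x hx z hz hxz
    obtain ⟨k, hk', rfl⟩ := Finset.mem_image.1 hx
    obtain ⟨l, hl', rfl⟩ := Finset.mem_image.1 hz
    rw [Finset.mem_range] at hk' hl'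
    have hkl : k ≠ l := fun h => hxz (by rw [h])
    have h1 := norm_le_pi_norm ((![0, 0, c + Z (((k : ℝ) + 1) * r)] : V) -
      ![0, 0, c + Z (((l : ℝ) + 1) * r)]) 2
    rw [Pi.sub_apply, Real.norm_eq_abs] at h1
    refine (hsep k l hk' hl' hkl).trans (le_trans (le_of_eq ?_) h1)
    show _ = |c + Z (((k : ℝ) + 1) * r) - (c + Z (((l : ℝ) + 1) * r))|
    congr 1
    ring)
  rw [Finset.card_image_of_injOn hinj, Finset.card_range] at hlt
  linarith

/-- Job AXI-34. -/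
theorem stmGR : StmGR := by
  intro T E c R H u p hT hR h
  exact ⟨fun y hy hs => reg_off hT h hy hs, fun h₀ h1 h2 => reg_on hT hR h h1 h2⟩

end Pool.Agent.Q151.AXI
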