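import Pool.Agent.Q67.AXI.Defs
import Pool.Agent.TH305.DR.Dom

/-!
Project AXI (helper67), job AXI-36: assembly.
-/

set_option autoImplicit false

open MeasureTheory Set Metric Filter Topology
open scoped ContDiff
open H459R3.NS Pool.Agent.W268.NS Pool.Agent.Q67.VD

namespace Pool.Agent.Q151.AXI

open Pool.Agent.Q85.CC Pool.Agent.Q85.CL Pool.Agent.TH305.AX Pool.Agent.Q67.AXI

theorem bdA_mono {K K' : ℝ} (h : K ≤ K') {v : V → V} {x : V} (hb : BdA K v x) : BdA K' v x := by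
  obtain ⟨a1, a2, a3, a4, a5, a6⟩ := hb
  exact ⟨fun i => (a1 i).trans h, a2.trans h, a3.trans h, a4.trans h, a5.trans h, fun i =>
    ⟨(a6 i).1.trans h, (a6 i).2.1.trans h, (a6 i).2.2.1.trans h, (a6 i).2.2.2.trans h⟩⟩

theorem cut_mono {c r h r1 h1 K K' : ℝ} (hK : K ≤ K') {φ : V → ℝ} (hc : Cut c r h r1 h1 K φ) :
    Cut c r h r1 h1 K' φ :=
  { sm := hc.sm
    cs := hc.cs
    nn := hc.nn
    le := hc.le
    ax := hc.ax
    one := hc.one
    supp := hc.supp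
    bd := fun x => ⟨fun i => ((hc.bd x).1 i).trans hK, (hc.bd x).2.1.trans hK,
      (hc.bd x).2.2.trans (mul_le_mul_of_nonneg_right hK (sg_nonneg x))⟩ }

theorem slice {T : ℝ} {u : ℝ → V → V}
    (h : ContDiffOn ℝ ∞ (fun z : ℝ × V => u z.1 z.2) (Ioo 0 T ×ˢ univ)) {t : ℝ}
    (ht : t ∈ Ioo 0 T) : ContDiff ℝ ∞ (u t) := by
  rw [contDiff_iff_contDiffAt]
  intro x
  have h1 : ContDiffAt ℝ ∞ (fun z : ℝ × V => u z.1 z.2) (t, x) :=
    h.contDiffAt (prod_mem_nhds (Ioo_mem_nhds ht.1 ht.2) univ_mem)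
  exact h1.comp x (contDiffAt_const.prodMk contDiffAt_id)

theorem sg_cont : Continuous sg := by
  unfold sg
  fun_prop

theorem x2_cont (c : ℝ) : Continuous (fun x : V => |x 2 - c|) := by fun_prop

theorem co_open (c r h : ℝ) : IsOpen (Co c r h) :=
  IsOpen.inter (isOpen_lt sg_cont continuous_const) (isOpen_lt (x2_cont c) continuous_const)

theorem cy_meas (c r h : ℝ) : MeasurableSet (Cy c r h) :=
  (IsClosed.inter (isClosed_le sg_cont continuous_const)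
    (isClosed_le (x2_cont c) continuous_const)).measurableSet

theorem gr2_cont {f : V → ℝ} (hf : ContDiff ℝ ∞ f) : Continuous (gr2 f) := by
  unfold gr2
  refine continuous_finsetSum _ fun i _ => ?_
  exact (Pool.Agent.W583.MD.sm_pd hf i).continuous.pow 2

theorem gr2_nonneg (f : V → ℝ) (x : V) : 0 ≤ gr2 f x := Finset.sum_nonneg fun i _ => sq_nonneg _

/-- The energy in the inner cylinder. -/
theorem inner {c r h r1 h1 K : ℝ} (hr1 : 0 < r1) (hh1 : 0 < h1) {φ : V → ℝ}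
    (hc : Cut c r h r1 h1 K φ) {U O : V → ℝ} (hU : ContDiff ℝ ∞ U) (hO : ContDiff ℝ ∞ O) :
    ∫ x in Cy c (r1 / 2) (h1 / 2), (U x ^ 2 + gr2 U x + O x ^ 2) ≤
      (∫ x, (φ x * U x) ^ 2) + GD (fun x => φ x * U x) + ∫ x, φ x ^ 2 * O x ^ 2 := by
  have hφU : ContDiff ℝ ∞ (fun x => φ x * U x) := hc.sm.mul hU
  have hcs : HasCompactSupport (fun x => φ x * U x) := hc.cs.mul_right
  have i1 : Integrable (fun x => (φ x * U x) ^ 2) := by
    have h2 : (fun x => (φ x * U x) ^ 2) = fun x => (φ x * U x) * (φ x * U x) := by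
      funext x
      ring
    rw [h2]
    exact (hφU.continuous.mul hφU.continuous).integrable_of_hasCompactSupport hcs.mul_right
  have i2 : Integrable (gr2 (fun x => φ x * U x)) := by
    refine (gr2_cont hφU).integrable_of_hasCompactSupport ?_
    refine HasCompactSupport.intro hcs.isCompact fun x hx => ?_
    unfold gr2
    refine Finset.sum_eq_zero fun i _ => ?_
    have h2 : pd i (fun x => φ x * U x) x = 0 := by
      have h3 : (fun x => φ x * U x) =ᶠ[𝓝 x] fun _ => 0 := notMem_tsupport_iff_eventuallyEq.1 hx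
      unfold H459R3.NS.pd
      rw [h3.fderiv_eq]
      simp
    rw [h2]
    norm_num
  have i3 : Integrable (fun x => φ x ^ 2 * O x ^ 2) := by
    have h2 : (fun x => φ x ^ 2 * O x ^ 2) = fun x => φ x * (φ x * O x ^ 2) := by
      funext x
      ring
    rw [h2]
    exact (hc.sm.continuous.mul (hc.sm.continuous.mul (hO.continuous.pow 2))).integrable_of_hasCompactSupport
      hc.cs.mul_right
  have hsub : Cy c (r1 / 2) (h1 / 2) ⊆ Co c r1 h1 := by
    intro x hx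
    refine ⟨hx.1.trans_lt ?_, hx.2.trans_lt (by linarith)⟩
    exact pow_lt_pow_left₀ (by linarith) (by positivity) (by norm_num)
  have hone : ∀ x ∈ Co c r1 h1, φ x = 1 := fun x hx => hc.one x ⟨hx.1.le, hx.2.le⟩
  have heq : ∫ x in Cy c (r1 / 2) (h1 / 2), (U x ^ 2 + gr2 U x + O x ^ 2) =
      ∫ x in Cy c (r1 / 2) (h1 / 2), ((φ x * U x) ^ 2 + gr2 (fun x => φ x * U x) x +
        φ x ^ 2 * O x ^ 2) := by
    refine setIntegral_congr_fun (cy_meas _ _ _) fun x hx => ?_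
    have hx' := hsub hx
    have e1 := hone x hx'
    have e2 : gr2 (fun x => φ x * U x) x = gr2 U x := by
      unfold gr2
      refine Finset.sum_congr rfl fun i _ => ?_
      have h3 : (fun x => φ x * U x) =ᶠ[𝓝 x] U := by
        filter_upwards [(co_open c r1 h1).mem_nhds hx'] with z hz
        rw [hone z hz, one_mul]
      unfold H459R3.NS.pd
      rw [h3.fderiv_eq]
    show _ = (φ x * U x) ^ 2 + gr2 (fun x => φ x * U x) x + φ x ^ 2 * O x ^ 2
    rw [e2, e1]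
    ring
  rw [heq]
  refine (setIntegral_le_integral ((i1.add i2).add i3) (Eventually.of_forall fun x => ?_)).trans ?_
  · show 0 ≤ (φ x * U x) ^ 2 + gr2 (fun x => φ x * U x) x + φ x ^ 2 * O x ^ 2
    have := gr2_nonneg (fun x => φ x * U x) x
    positivity
  · have e3 := integral_add (i1.add i2) i3
    have e4 := integral_add i1 i2
    unfold GD
    refine le_of_eq ?_
    rw [← e4]
    exact e3

/-- Job AXI-36. -/
theorem stmMain (hGd : StmGd) (hLog : StmLog) (hCut : StmCut) (hBt : StmBt) (hYi : StmYi)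
    (hFin : StmFin) (hMo : StmMo) (hReg : StmReg) (hAlg : StmAlg) : StmMain := by
  intro T E c R H T₀ u p B α C hT hR hH hA hT₀ hBc hBi hα hC hcond
  obtain ⟨r, hr⟩ : ∃ r : ℝ, r = min R 1 / 2 := ⟨_, rfl⟩
  have hr0 : 0 < r := by rw [hr]; positivity
  have hrR : r < R := by rw [hr]; have := min_le_left R 1; linarith
  have hr1 : r < 1 := by rw [hr]; have := min_le_right R 1; linarith
  obtain ⟨h₀, hh₀⟩ : ∃ h₀ : ℝ, h₀ = min H 1 / 2 := ⟨_, rfl⟩
  have hh₀0 : 0 < h₀ := by rw [hh₀]; positivity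
  have hh₀H : h₀ < H := by rw [hh₀]; have := min_le_left H 1; linarith
  have hh₀1 : h₀ < 1 := by rw [hh₀]; have := min_le_right H 1; linarith
  obtain ⟨h, h1, hh1, hh1h, hhh₀, hG⟩ := hGd T E c R H u p hT hR hH hA r h₀ hr0 hrR hh₀0 hh₀H
  have hh0 : 0 < h := hh1.trans hh1h
  have hhH : h < H := hhh₀.trans hh₀H
  obtain ⟨KA, TA, hKA, hTA0, hTAT, hbA⟩ := hG r (r / 2) le_rfl (by positivity) (by linarith)
  obtain ⟨T₁, hT₁⟩ : ∃ T₁ : ℝ, T₁ = max TA T₀ := ⟨_, rfl⟩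
  have hT₁A : TA ≤ T₁ := by rw [hT₁]; exact le_max_left _ _
  have hT₁0 : T₀ ≤ T₁ := by rw [hT₁]; exact le_max_right _ _
  have hT₁T : T₁ < T := by rw [hT₁]; exact max_lt hTAT hT₀
  have hT₁p : 0 < T₁ := hTA0.trans_le hT₁A
  obtain ⟨α', hα'⟩ : ∃ α' : ℝ, α' = min ((α + 3 / 2) / 2) 2 := ⟨_, rfl⟩
  have ha1 : 3 / 2 < α' := by rw [hα']; exact lt_min (by linarith) (by norm_num)
  have ha2 : α' < α := by rw [hα']; exact (min_le_left _ _).trans_lt (by linarith)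
  have ha3 : α' ≤ 2 := by rw [hα']; exact min_le_right _ _
  obtain ⟨C', hC', hcirc⟩ := hLog T E c R H r h T₁ KA u p B α α' C hA hr0 hrR hr1 hh0 hhH hT₁p
    hT₁T (by
      intro t ht x hx hb
      refine (hbA t ⟨hT₁A.trans ht.1, ht.2⟩ x ⟨hx, ?_⟩).2.2.1
      rcases hb with hb | hb
      · left
        rw [hb]
        exact pow_le_pow_left₀ (by positivity) (by linarith) 2
      · right
        rw [hb]
        exact hh1h.le) hBc hBi (by linarith) ha2 hC (by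
      intro t ht x hx hs
      refine hcond t ⟨hT₁p.trans ht.1, ht.2⟩ (hT₁0.trans_lt ht.1) x ⟨hx.1.trans ?_,
        hx.2.trans hhH⟩ hs (hx.1.trans ?_)
      · exact pow_lt_pow_left₀ hrR hr0.le (by norm_num)
      · exact pow_lt_one₀ hr0.le hr1 (by norm_num))
  -- the smaller cylinder
  obtain ⟨r', hr'⟩ : ∃ r' : ℝ, r' = min r (Real.exp (-1)) := ⟨_, rfl⟩
  have hr'0 : 0 < r' := by rw [hr']; exact lt_min hr0 (Real.exp_pos _)
  have hr'r : r' ≤ r := by rw [hr']; exact min_le_left _ _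
  have hr'e : r' ^ 2 ≤ Real.exp (-2) := by
    have h2 : r' ≤ Real.exp (-1) := by rw [hr']; exact min_le_right _ _
    calc r' ^ 2 ≤ Real.exp (-1) ^ 2 := pow_le_pow_left₀ hr'0.le h2 2
      _ = Real.exp (-2) := by rw [← Real.exp_nat_mul]; norm_num
  obtain ⟨KB, TB, hKB, hTB0, hTBT, hbB⟩ := hG r' (r' / 2) hr'r (by positivity) (by linarith)
  obtain ⟨KC, φ, hKC, hφ⟩ := hCut c r' h (r' / 2) h1 (by positivity) (by linarith) hh1 hh1h
  obtain ⟨K, hK⟩ : ∃ K : ℝ, K = max KB KC := ⟨_, rfl⟩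
  have hKBK : KB ≤ K := by rw [hK]; exact le_max_left _ _
  have hKCK : KC ≤ K := by rw [hK]; exact le_max_right _ _
  have hK0 : 0 ≤ K := hKB.trans hKBK
  obtain ⟨T₂, hT₂⟩ : ∃ T₂ : ℝ, T₂ = max T₁ TB := ⟨_, rfl⟩
  have hT₂1 : T₁ ≤ T₂ := by rw [hT₂]; exact le_max_left _ _
  have hT₂B : TB ≤ T₂ := by rw [hT₂]; exact le_max_right _ _
  have hT₂T : T₂ < T := by rw [hT₂]; exact max_lt hT₁T hTBT
  have hT₂0 : 0 < T₂ := hT₁p.trans_le hT₂1
  have hφ' := cut_mono hKCK hφ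
  have hbK : ∀ t ∈ Ico T₂ T, ∀ x ∈ Out c r' h (r' / 2) h1, BdA K (u t) x := fun t ht x hx =>
    bdA_mono hKBK (hbB t ⟨hT₂B.trans ht.1, ht.2⟩ x hx)
  have hcK : ∀ t ∈ Ico T₂ T, ∀ x ∈ Co c r' h, sg x ≠ 0 →
      |circ (u t) x| ≤ C' * |Real.log (sg x)| ^ (-α') := fun t ht x hx hs =>
    hcirc t ⟨hT₂1.trans ht.1, ht.2⟩ x ⟨hx.1.le.trans (pow_le_pow_left₀ hr'0.le hr'r 2), hx.2.le⟩
      (lt_of_le_of_ne (sg_nonneg x) (Ne.symm hs))
  obtain ⟨K', hK', hWK⟩ := hBt T E c R H K r' h (r' / 2) h1 T₂ C' α' u p φ hA hK0 (by positivity)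
    (by linarith) (by linarith) hr'e hh1 hh1h hhH (by linarith) hT₂0 hT₂T hC' ha1 ha3 hφ' hbK hcK
  obtain ⟨C₂, hC₂, hY⟩ := hYi T E c R H K r' h (r' / 2) h1 T₂ C' α' K' u p φ hA hK0
    (by positivity) (by linarith) (by linarith) hr'e hh1 hh1h hhH (by linarith) hT₂0 hT₂T hC' ha1
    ha3 hφ' hbK hcK hWK
  have hen : ∀ t ∈ Ico T₂ T, (∀ x ∈ Cy c (r' / 2 / 2) (h1 / 2), |WW (u t) x| ≤ K' + 3 * C₂) ∧
      ∫ x in Cy c (r' / 2 / 2) (h1 / 2), (UU (u t) x ^ 2 + gr2 (UU (u t)) x + OO (u t) x ^ 2)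
        ≤ K' + 3 * C₂ := by
    intro t ht
    have htI : t ∈ Ioo 0 T := ⟨hT₂0.trans_le ht.1, ht.2⟩
    have hsm := slice hA.smooth_u htI
    obtain ⟨⟨hU, -, -, hO⟩, -⟩ := hAlg (u t) hsm (hA.axi t htI)
    refine ⟨fun x hx => ?_, ?_⟩
    · have hx' : x ∈ Co c r' h := by
        refine ⟨hx.1.trans_lt ?_, hx.2.trans_lt (by linarith)⟩
        exact pow_lt_pow_left₀ (by linarith) (by positivity) (by norm_num)
      have := hWK t ht x hx'
      linarith
    · have h2 := inner (by positivity) hh1 hφ' hU hO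
      obtain ⟨y1, y2, y3⟩ := hY t ht
      linarith
  have hKK : 0 ≤ K' + 3 * C₂ := by positivity
  obtain ⟨K₀, hK₀, hmo⟩ := hMo T E c R H (r' / 2 / 2) (h1 / 2) T₂ (K' + 3 * C₂) u p hA
    (by positivity) (by linarith) (by positivity) (by linarith) hT₂0 hT₂T hKK hen
  obtain ⟨ε, hε, hreg⟩ := hReg K₀ hK₀
  have hqt := hFin T E c R H (r' / 2 / 2) (h1 / 2) T₂ (K' + 3 * C₂) u p hA
    (by positivity) (by linarith) (by positivity) (by linarith) hT₂0 hT₂T hKK hen ε hε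
  refine hreg T E (Co c R H) u p hT hA.toLSl ![0, 0, c] ?_ hmo hqt
  refine ⟨?_, ?_⟩
  · have : sg (![0, 0, c] : V) = 0 := by
      unfold sg
      simp
    rw [this]
    positivity
  · show |c - c| < H
    rw [sub_self, abs_zero]
    exact hH

end Pool.Agent.Q151.AXI
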